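import Pool.Agent.W192.PP.Defs
import Pool.Agent.H382P.Fm
import Pool.Agent.Helper923.HMertens

/-!
# PP-COEF: bounded second moment of the coefficients
-/

open Complex Filter Topology Set

namespace Pool.Agent.W612.PP

open Pool.Agent.W192.PP
open SG (phi hh dl)

/-! ### an upper bound by an Euler product -/

/-- the weights -/
noncomputable def ww (k : ℕ) : ℝ := 8 * ((k + 1 : ℕ) : ℝ) ^ 4 * (1 / 2) ^ k

theorem ww_nonneg (k : ℕ) : 0 ≤ ww k := by unfold ww; positivity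

theorem ww_summable : Summable ww := by
  have h := summable_pow_mul_geometric_of_norm_lt_one 4 (r := (1 / 2 : ℝ)) (by norm_num)
  have h2 := (summable_nat_add_iff 1).2 h
  refine (h2.mul_left 16).congr fun k => ?_
  unfold ww
  rw [pow_succ (1 / 2 : ℝ) k]
  ring

theorem euler_le (f : ℕ → ℝ) (h0 : ∀ n, 0 ≤ f n) (h1 : f 1 = 1)
    (hm : ∀ {m n : ℕ}, m.Coprime n → f (m * n) = f m * f n) (a : ℕ → ℝ) (X : ℕ)
    (ha0 : ∀ p, 0 ≤ a p)
    (ha : ∀ p : ℕ, p.Prime → ∃ b : ℝ, ∀ k : ℕ, 1 ≤ k → f (p ^ k) ≤ b * ww k)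
    (hb : ∀ p : ℕ, p.Prime → p ≤ X → ∀ k : ℕ, 1 ≤ k → f (p ^ k) ≤ a p * ww k) :
    ∑ n ∈ Finset.Icc 1 X, f n ≤
      Real.exp ((∑' k, ww k) * ∑ p ∈ (Finset.Icc 1 X).filter Nat.Prime, a p) := by
  have hs : ∀ {p : ℕ}, p.Prime → Summable (fun n : ℕ => ‖f (p ^ n)‖) := by
    intro p hp
    obtain ⟨b, hb'⟩ := ha p hp
    rw [← summable_nat_add_iff 1]
    refine Summable.of_nonneg_of_le (fun _ => norm_nonneg _) (fun k => ?_)
      (((summable_nat_add_iff 1).2 ww_summable).mul_left b)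
    rw [Real.norm_of_nonneg (h0 _)]
    exact hb' (k + 1) (by omega)
  obtain ⟨hsum, hhas⟩ :=
    EulerProduct.summable_and_hasSum_smoothNumbers_prod_primesBelow_tsum h1 hm hs (X + 1)
  have hle : ∑ n ∈ Finset.Icc 1 X, f n ≤ ∏ p ∈ (X + 1).primesBelow, ∑' n : ℕ, f (p ^ n) := by
    rw [← hhas.tsum_eq]
    have hsub : ∀ n ∈ Finset.Icc 1 X, n ∈ (X + 1).smoothNumbers := by
      intro n hn
      rw [Finset.mem_Icc] at hn
      exact Nat.mem_smoothNumbers_of_lt (by omega) (by omega)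
    rw [← Finset.sum_attach]
    let g : {x // x ∈ Finset.Icc 1 X} ↪ ((X + 1).smoothNumbers) :=
      ⟨fun x => ⟨x.1, hsub x.1 x.2⟩, fun x y h => Subtype.ext (by simpa using h)⟩
    have h3 := Summable.sum_le_tsum ((Finset.Icc 1 X).attach.map g) (fun i _ => h0 i.1)
      (f := fun m : (X + 1).smoothNumbers => f m) hhas.summable
    rw [Finset.sum_map] at h3
    exact h3
  refine hle.trans ?_
  have hpb : (X + 1).primesBelow = (Finset.Icc 1 X).filter Nat.Prime := by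
    ext p
    simp only [Nat.mem_primesBelow, Finset.mem_filter, Finset.mem_Icc]
    constructor
    · rintro ⟨h1, h2⟩
      exact ⟨⟨h2.one_lt.le, by omega⟩, h2⟩
    · rintro ⟨⟨h1, h2⟩, h3⟩
      exact ⟨by omega, h3⟩
  rw [hpb, Finset.mul_sum, Real.exp_sum]
  refine Finset.prod_le_prod (fun p _ => tsum_nonneg fun n => h0 _) fun p hp => ?_
  rw [Finset.mem_filter, Finset.mem_Icc] at hp
  have hsp : Summable (fun n : ℕ => f (p ^ n)) := by
    have := hs hp.2
    exact this.congr fun n => by rw [Real.norm_of_nonneg (h0 _)]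
  rw [hsp.tsum_eq_zero_add, pow_zero, h1]
  have h4 : ∑' k : ℕ, f (p ^ (k + 1)) ≤ a p * ∑' k, ww k := by
    rw [← tsum_mul_left]
    have h5 : Summable fun k => a p * ww k := ww_summable.mul_left _
    have h6 : ∑' k : ℕ, a p * ww (k + 1) ≤ ∑' k : ℕ, a p * ww k := by
      rw [h5.tsum_eq_zero_add]
      have := mul_nonneg (ha0 p) (ww_nonneg 0)
      linarith
    refine le_trans (Summable.tsum_le_tsum (fun k => hb p hp.2 hp.1.2 (k + 1) (by omega))
      ((summable_nat_add_iff 1).2 hsp) ((summable_nat_add_iff 1).2 h5)) h6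
  have h7 := Real.add_one_le_exp ((∑' k, ww k) * a p)
  linarith [mul_comm (a p) (∑' k, ww k)]

/-! ### arithmetic functions -/

open Classical in
/-- indicator of rough numbers -/
noncomputable def R1 (z : ℝ) : ArithmeticFunction ℝ :=
  ⟨fun n => if Rough z n then 1 else 0, by simp [Rough]⟩

theorem R1_apply_rough {z : ℝ} {n : ℕ} (h : Rough z n) : R1 z n = 1 := if_pos h
theorem R1_apply_not {z : ℝ} {n : ℕ} (h : ¬ Rough z n) : R1 z n = 0 := if_neg h

theorem R1_nonneg (z : ℝ) (n : ℕ) : 0 ≤ R1 z n := by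
  by_cases h : Rough z n
  · rw [R1_apply_rough h]; norm_num
  · rw [R1_apply_not h]

theorem rough_one (z : ℝ) : Rough z 1 :=
  ⟨one_ne_zero, fun _ hp h => absurd (Nat.dvd_one.1 h) hp.ne_one⟩

theorem rough_mul {z : ℝ} {m n : ℕ} : Rough z (m * n) ↔ Rough z m ∧ Rough z n := by
  unfold Rough
  constructor
  · rintro ⟨h1, h2⟩
    exact ⟨⟨left_ne_zero_of_mul h1, fun p hp h => h2 p hp (h.mul_right _)⟩,
      ⟨right_ne_zero_of_mul h1, fun p hp h => h2 p hp (h.mul_left _)⟩⟩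
  · rintro ⟨⟨h1, h2⟩, ⟨h3, h4⟩⟩
    refine ⟨mul_ne_zero h1 h3, fun p hp h => ?_⟩
    rcases (Nat.Prime.dvd_mul hp).1 h with h | h
    · exact h2 p hp h
    · exact h4 p hp h

theorem R1_mult (z : ℝ) : (R1 z).IsMultiplicative := by
  refine ⟨R1_apply_rough (rough_one z), ?_⟩
  intro m n _
  by_cases h1 : Rough z m
  · by_cases h2 : Rough z n
    · rw [R1_apply_rough h1, R1_apply_rough h2, R1_apply_rough (rough_mul.2 ⟨h1, h2⟩), one_mul]
    · rw [R1_apply_not h2, R1_apply_not (fun h => h2 (rough_mul.1 h).2), mul_zero]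
  · rw [R1_apply_not h1, R1_apply_not (fun h => h1 (rough_mul.1 h).1), zero_mul]

/-- `n^h` -/
noncomputable def AA (δ : ℝ) : ArithmeticFunction ℂ :=
  ⟨fun n => if n = 0 then 0 else (n : ℂ) ^ (hh δ), by simp⟩

/-- `μ(n) n^{-h}` -/
noncomputable def BB (δ : ℝ) : ArithmeticFunction ℂ :=
  ⟨fun n => ((ArithmeticFunction.moebius n : ℤ) : ℂ) * (n : ℂ) ^ (-(hh δ)), by simp⟩

theorem AA_apply (δ : ℝ) {n : ℕ} (hn : n ≠ 0) : AA δ n = (n : ℂ) ^ (hh δ) := if_neg hn
theorem BB_apply (δ : ℝ) (n : ℕ) :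
  BB δ n = ((ArithmeticFunction.moebius n : ℤ) : ℂ) * (n : ℂ) ^ (-(hh δ)) := rfl

theorem AA_mult (δ : ℝ) : (AA δ).IsMultiplicative := by
  rw [ArithmeticFunction.IsMultiplicative.iff_ne_zero]
  refine ⟨by rw [AA_apply δ one_ne_zero]; simp, ?_⟩
  intro m n hm hn _
  rw [AA_apply δ hm, AA_apply δ hn, AA_apply δ (mul_ne_zero hm hn), Nat.cast_mul,
    Complex.natCast_mul_natCast_cpow]

theorem BB_mult (δ : ℝ) : (BB δ).IsMultiplicative := by
  refine ⟨by rw [BB_apply]; simp, ?_⟩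
  intro m n hmn
  rw [BB_apply, BB_apply, BB_apply,
    ArithmeticFunction.isMultiplicative_moebius.map_mul_of_coprime hmn, Nat.cast_mul,
    Complex.natCast_mul_natCast_cpow]
  push_cast
  ring

theorem fm_eq (δ : ℝ) (m : ℕ) : SP.fm δ m = (AA δ * BB δ) m := by
  rw [ArithmeticFunction.mul_apply]
  have h := Nat.sum_divisorsAntidiagonal (fun a b : ℕ => AA δ a * BB δ b) (n := m)
  rw [h, SP.fm]
  refine Finset.sum_congr rfl fun x hx => ?_
  have hx0 : x ≠ 0 := (Nat.pos_of_mem_divisors hx).ne'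
  rw [AA_apply δ hx0, BB_apply]
  ring

/-- `|fm|` -/
noncomputable def FM (δ : ℝ) : ArithmeticFunction ℝ :=
  ⟨fun n => ‖SP.fm δ n‖, by simp [SP.fm]⟩

theorem FM_apply (δ : ℝ) (n : ℕ) : FM δ n = ‖SP.fm δ n‖ := rfl

theorem FM_mult (δ : ℝ) : (FM δ).IsMultiplicative := by
  have h := (AA_mult δ).mul (BB_mult δ)
  refine ⟨by rw [FM_apply, fm_eq, h.1, norm_one], ?_⟩
  intro m n hmn
  rw [FM_apply, FM_apply, FM_apply, fm_eq, fm_eq, fm_eq, h.2 hmn, norm_mul]

theorem fm_prime_pow (δ : ℝ) {p k : ℕ} (hp : p.Prime) :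
    SP.fm δ (p ^ (k + 1)) = ((p : ℂ) ^ (hh δ)) ^ k * ((p : ℂ) ^ (hh δ) - (p : ℂ) ^ (-(hh δ))) := by
  rw [SP.fm, Nat.sum_divisors_prime_pow hp, Finset.sum_range_succ, Finset.sum_range_succ]
  have h0 : ∑ x ∈ Finset.range k, (((p ^ x : ℕ) : ℂ) ^ (hh δ) *
      ((ArithmeticFunction.moebius (p ^ (k + 1) / p ^ x) : ℤ) : ℂ) *
      ((p ^ (k + 1) / p ^ x : ℕ) : ℂ) ^ (-(hh δ))) = 0 := by
    refine Finset.sum_eq_zero fun x hx => ?_
    rw [Finset.mem_range] at hx
    rw [Nat.pow_div (by omega) hp.pos, ArithmeticFunction.moebius_apply_prime_pow hp (by omega),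
      if_neg (by omega)]
    simp
  have hp1 : ∀ j : ℕ, ((p ^ j : ℕ) : ℂ) ^ (hh δ) = ((p : ℂ) ^ (hh δ)) ^ j := by
    intro j
    rw [Nat.cast_pow, ← Complex.natCast_cpow_natCast_mul, mul_comm, Complex.cpow_mul_nat]
  rw [h0, Nat.pow_div (by omega) hp.pos, Nat.pow_div (by omega) hp.pos]
  rw [show k + 1 - k = 1 by omega, Nat.sub_self, pow_one, pow_zero,
    ArithmeticFunction.moebius_apply_prime hp, ArithmeticFunction.moebius_apply_one, hp1, hp1]
  push_cast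
  rw [Complex.one_cpow]
  ring

theorem fm_norm_le (δ : ℝ) {p k : ℕ} (hp : p.Prime) :
    ‖SP.fm δ (p ^ (k + 1))‖ ≤ 2 ∧ ‖SP.fm δ (p ^ (k + 1))‖ ≤ |δ| * Real.log p := by
  rw [fm_prime_pow δ hp, norm_mul, norm_pow, SP.fm_norm_pow δ hp.pos, one_pow, one_mul]
  constructor
  · refine (norm_sub_le _ _).trans ?_
    rw [SP.fm_norm_pow δ hp.pos, SP.fm_norm_pow_neg δ hp.pos]
    norm_num
  · have hp0 : (p : ℂ) ≠ 0 := by exact_mod_cast hp.ne_zero
    have hlog : Complex.log (p : ℂ) = ((Real.log p : ℝ) : ℂ) := (Complex.natCast_log).symm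
    have e1 : (p : ℂ) ^ (hh δ) = cexp (I * ((δ / 2 * Real.log p : ℝ) : ℂ)) := by
      rw [Complex.cpow_def_of_ne_zero hp0, hlog, hh]
      congr 1
      push_cast
      ring
    have e2 : (p : ℂ) ^ (-(hh δ)) = cexp (-(I * ((δ / 2 * Real.log p : ℝ) : ℂ))) := by
      rw [Complex.cpow_def_of_ne_zero hp0, hlog, hh]
      congr 1
      push_cast
      ring
    have e3 : (p : ℂ) ^ (hh δ) - (p : ℂ) ^ (-(hh δ)) =
        cexp (-(I * ((δ / 2 * Real.log p : ℝ) : ℂ))) *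
          (cexp (I * ((δ * Real.log p : ℝ) : ℂ)) - 1) := by
      rw [e1, e2, mul_sub, ← Complex.exp_add, mul_one]
      congr 2
      push_cast
      ring
    rw [e3, norm_mul, Complex.norm_exp]
    have e4 : (-(I * ((δ / 2 * Real.log p : ℝ) : ℂ))).re = 0 := by
      rw [Complex.neg_re, Complex.mul_re, Complex.I_re, Complex.I_im, Complex.ofReal_im]
      ring
    rw [e4, Real.exp_zero, one_mul]
    refine (Real.norm_exp_I_mul_ofReal_sub_one_le).trans ?_
    rw [Real.norm_eq_abs, abs_mul, abs_of_nonneg (Real.log_natCast_nonneg p)]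

/-! ### the majorant -/

/-- the majorant of the coefficients -/
noncomputable def GG (z δ : ℝ) : ArithmeticFunction ℝ := R1 z * FM δ * R1 z

theorem GG_mult (z δ : ℝ) : (GG z δ).IsMultiplicative :=
  ((R1_mult z).mul (FM_mult δ)).mul (R1_mult z)

theorem FM_nonneg (δ : ℝ) (n : ℕ) : 0 ≤ FM δ n := by
  rw [FM_apply]
  exact norm_nonneg _

theorem RF_nonneg (z δ : ℝ) (n : ℕ) : 0 ≤ (R1 z * FM δ) n := by
  rw [ArithmeticFunction.mul_apply]
  exact Finset.sum_nonneg fun x _ => mul_nonneg (R1_nonneg _ _) (FM_nonneg _ _)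

theorem GG_nonneg (z δ : ℝ) (n : ℕ) : 0 ≤ GG z δ n := by
  rw [GG, ArithmeticFunction.mul_apply]
  exact Finset.sum_nonneg fun x _ => mul_nonneg (RF_nonneg _ _ _) (R1_nonneg _ _)

theorem mul_prime_pow (u v : ArithmeticFunction ℝ) {p k : ℕ} (hp : p.Prime) :
    (u * v) (p ^ k) = ∑ i ∈ Finset.range (k + 1), u (p ^ i) * v (p ^ (k - i)) := by
  rw [ArithmeticFunction.mul_apply]
  have h := Nat.sum_divisorsAntidiagonal (fun a b : ℕ => u a * v b) (n := p ^ k)
  rw [h, Nat.sum_divisors_prime_pow hp]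
  refine Finset.sum_congr rfl fun i hi => ?_
  rw [Finset.mem_range] at hi
  rw [Nat.pow_div (by omega) hp.pos]

theorem R1_pow_big {z : ℝ} {p : ℕ} (hp : p.Prime) (hz : z < p) (i : ℕ) : R1 z (p ^ i) = 1 := by
  refine R1_apply_rough ⟨pow_ne_zero _ hp.ne_zero, fun q hq h => ?_⟩
  have := (Nat.prime_dvd_prime_iff_eq hq hp).1 (hq.dvd_of_dvd_pow h)
  rw [this]
  exact hz

theorem R1_pow_small {z : ℝ} {p : ℕ} (hp : p.Prime) (hz : (p : ℝ) ≤ z) {i : ℕ} (hi : i ≠ 0) :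
    R1 z (p ^ i) = 0 := by
  refine R1_apply_not fun h => ?_
  have := h.2 p hp (dvd_pow_self p hi)
  linarith

theorem GG_small {z δ : ℝ} {p k : ℕ} (hp : p.Prime) (hz : (p : ℝ) ≤ z) :
    GG z δ (p ^ k) = FM δ (p ^ k) := by
  rw [GG, mul_prime_pow _ _ hp, Finset.sum_range_succ, Nat.sub_self, pow_zero]
  have h0 : ∑ x ∈ Finset.range k, (R1 z * FM δ) (p ^ x) * R1 z (p ^ (k - x)) = 0 := by
    refine Finset.sum_eq_zero fun x hx => ?_
    rw [Finset.mem_range] at hx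
    rw [R1_pow_small hp hz (by omega), mul_zero]
  rw [h0, R1_apply_rough (rough_one z), mul_one, zero_add, mul_prime_pow _ _ hp,
    Finset.sum_range_succ', pow_zero, R1_apply_rough (rough_one z), one_mul, Nat.sub_zero]
  have h1 : ∑ x ∈ Finset.range k, R1 z (p ^ (x + 1)) * FM δ (p ^ (k - (x + 1))) = 0 := by
    refine Finset.sum_eq_zero fun x hx => ?_
    rw [R1_pow_small hp hz (by omega), zero_mul]
  rw [h1, zero_add]

theorem FM_le_two {δ : ℝ} {p k : ℕ} (hp : p.Prime) : FM δ (p ^ k) ≤ 2 := by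
  rcases Nat.eq_zero_or_pos k with rfl | hk
  · rw [pow_zero, (FM_mult δ).1]
    norm_num
  · obtain ⟨j, rfl⟩ : ∃ j, k = j + 1 := ⟨k - 1, by omega⟩
    exact (fm_norm_le δ hp).1

theorem GG_big {z δ : ℝ} {p k : ℕ} (hp : p.Prime) (hz : z < p) :
    GG z δ (p ^ k) ≤ 2 * ((k + 1 : ℕ) : ℝ) ^ 2 := by
  have h1 : ∀ i, (R1 z * FM δ) (p ^ i) ≤ 2 * ((i + 1 : ℕ) : ℝ) := by
    intro i
    rw [mul_prime_pow _ _ hp]
    calc ∑ x ∈ Finset.range (i + 1), R1 z (p ^ x) * FM δ (p ^ (i - x))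
        ≤ ∑ x ∈ Finset.range (i + 1), (2 : ℝ) := by
          refine Finset.sum_le_sum fun x _ => ?_
          rw [R1_pow_big hp hz, one_mul]
          exact FM_le_two hp
      _ = 2 * ((i + 1 : ℕ) : ℝ) := by
          rw [Finset.sum_const, Finset.card_range, nsmul_eq_mul]
          ring
  rw [GG, mul_prime_pow _ _ hp]
  calc ∑ x ∈ Finset.range (k + 1), (R1 z * FM δ) (p ^ x) * R1 z (p ^ (k - x))
      ≤ ∑ x ∈ Finset.range (k + 1), 2 * ((k + 1 : ℕ) : ℝ) := by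
        refine Finset.sum_le_sum fun x hx => ?_
        rw [Finset.mem_range] at hx
        rw [R1_pow_big hp hz, mul_one]
        refine (h1 x).trans ?_
        have : ((x + 1 : ℕ) : ℝ) ≤ ((k + 1 : ℕ) : ℝ) := by exact_mod_cast (by omega)
        linarith
    _ = 2 * ((k + 1 : ℕ) : ℝ) ^ 2 := by
        rw [Finset.sum_const, Finset.card_range, nsmul_eq_mul]
        ring

/-- the values at prime powers -/
theorem GG_sq_le {z δ : ℝ} {p k : ℕ} (hp : p.Prime) (hk : 1 ≤ k) :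
    GG z δ (p ^ k) ^ 2 / ((p ^ k : ℕ) : ℝ) ≤
      ((if (p : ℝ) ≤ z then (|δ| * Real.log p) ^ 2 else 1) / p) * ww k := by
  obtain ⟨j, rfl⟩ : ∃ j, k = j + 1 := ⟨k - 1, by omega⟩
  have hp0 : (0 : ℝ) < p := by exact_mod_cast hp.pos
  have hp2 : (2 : ℝ) ≤ p := by exact_mod_cast hp.two_le
  have h2j : (2 : ℝ) ^ j ≤ (p : ℝ) ^ j := pow_le_pow_left₀ (by norm_num) hp2 j
  have h2j0 : (0 : ℝ) < 2 ^ j := by positivity
  have hww : ww (j + 1) = 4 * ((j + 1 + 1 : ℕ) : ℝ) ^ 4 / 2 ^ j := by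
    unfold ww
    rw [pow_succ, one_div, inv_pow]
    field_simp
    ring
  have hcast : ((p ^ (j + 1) : ℕ) : ℝ) = p * (p : ℝ) ^ j := by
    push_cast
    ring
  have hq1 : (1 : ℝ) ≤ ((j + 1 + 1 : ℕ) : ℝ) := by exact_mod_cast (by omega)
  rw [hcast, hww]
  split_ifs with hz
  · have h1 : GG z δ (p ^ (j + 1)) ≤ |δ| * Real.log p := by
      rw [GG_small hp hz]
      exact (fm_norm_le δ hp).2
    have h3 : GG z δ (p ^ (j + 1)) ^ 2 ≤ (|δ| * Real.log p) ^ 2 :=
      pow_le_pow_left₀ (GG_nonneg _ _ _) h1 2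
    have hq4 : (1 : ℝ) ≤ 4 * ((j + 1 + 1 : ℕ) : ℝ) ^ 4 := by
      have := one_le_pow₀ (n := 4) hq1
      linarith
    calc GG z δ (p ^ (j + 1)) ^ 2 / (p * (p : ℝ) ^ j)
        ≤ (|δ| * Real.log p) ^ 2 / (p * (p : ℝ) ^ j) := by gcongr
      _ ≤ (|δ| * Real.log p) ^ 2 / (p * 2 ^ j) := by gcongr
      _ = ((|δ| * Real.log p) ^ 2 / p) * (1 / 2 ^ j) := by field_simp
      _ ≤ ((|δ| * Real.log p) ^ 2 / p) * (4 * ((j + 1 + 1 : ℕ) : ℝ) ^ 4 / 2 ^ j) := by gcongr
  · have h1 : GG z δ (p ^ (j + 1)) ≤ 2 * ((j + 1 + 1 : ℕ) : ℝ) ^ 2 := GG_big hp (lt_of_not_ge hz)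
    have h3 : GG z δ (p ^ (j + 1)) ^ 2 ≤ (2 * ((j + 1 + 1 : ℕ) : ℝ) ^ 2) ^ 2 :=
      pow_le_pow_left₀ (GG_nonneg _ _ _) h1 2
    calc GG z δ (p ^ (j + 1)) ^ 2 / (p * (p : ℝ) ^ j)
        ≤ (2 * ((j + 1 + 1 : ℕ) : ℝ) ^ 2) ^ 2 / (p * (p : ℝ) ^ j) := by gcongr
      _ ≤ (2 * ((j + 1 + 1 : ℕ) : ℝ) ^ 2) ^ 2 / (p * 2 ^ j) := by gcongr
      _ = 1 / p * (4 * ((j + 1 + 1 : ℕ) : ℝ) ^ 4 / 2 ^ j) := by
        field_simp
        ring

/-! ### the coefficients -/

theorem d0_le (c ε T : ℝ) (n : ℕ) : ‖d0 c ε T n‖ ≤ R1 (T ^ ε) n := by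
  unfold d0
  split_ifs with h
  · rw [R1_apply_rough h, norm_mul, SP.fm_norm_pow _ (Nat.pos_of_ne_zero h.1), mul_one,
      Complex.norm_intCast]
    have h1 : |ArithmeticFunction.moebius n| ≤ 1 := ArithmeticFunction.abs_moebius_le_one
    exact_mod_cast h1
  · rw [norm_zero]
    exact R1_nonneg _ _

theorem e0_le (c ε T : ℝ) (N j : ℕ) :
    ‖e0 c ε T N j‖ ≤ (R1 (T ^ ε) * FM (dl c T)) j := by
  unfold e0
  rw [ArithmeticFunction.mul_apply]
  have h := Nat.sum_divisorsAntidiagonal (fun a b : ℕ => R1 (T ^ ε) a * FM (dl c T) b) (n := j)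
  rw [h]
  calc ‖∑ x ∈ j.divisors.filter (fun x => x ≤ N), d0 c ε T x * SP.fm (dl c T) (j / x)‖
      ≤ ∑ x ∈ j.divisors.filter (fun x => x ≤ N), R1 (T ^ ε) x * FM (dl c T) (j / x) := by
        refine norm_sum_le_of_le _ fun x _ => ?_
        rw [norm_mul]
        exact mul_le_mul_of_nonneg_right (d0_le _ _ _ _) (norm_nonneg _)
    _ ≤ _ := Finset.sum_le_sum_of_subset_of_nonneg (Finset.filter_subset _ _)
        fun x _ _ => mul_nonneg (R1_nonneg _ _) (FM_nonneg _ _)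

theorem b0_le (c ε T : ℝ) (N N' n : ℕ) :
    ‖b0 c ε T N N' n‖ ≤ GG (T ^ ε) (dl c T) n := by
  unfold b0
  rw [GG, ArithmeticFunction.mul_apply]
  calc ‖∑ x ∈ n.divisorsAntidiagonal.filter (fun x => x.1 ≤ N' ∧ x.2 ≤ N),
        e0 c ε T N x.1 * d0 c ε T x.2‖
      ≤ ∑ x ∈ n.divisorsAntidiagonal.filter (fun x => x.1 ≤ N' ∧ x.2 ≤ N),
        (R1 (T ^ ε) * FM (dl c T)) x.1 * R1 (T ^ ε) x.2 := by
        refine norm_sum_le_of_le _ fun x _ => ?_
        rw [norm_mul]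
        exact mul_le_mul (e0_le _ _ _ _ _) (d0_le _ _ _ _) (norm_nonneg _) (RF_nonneg _ _ _)
    _ ≤ _ := Finset.sum_le_sum_of_subset_of_nonneg (Finset.filter_subset _ _)
        fun x _ _ => mul_nonneg (RF_nonneg _ _ _) (R1_nonneg _ _)

theorem t_coef : S_coef := by
  intro c ε hc hc1 hε hε1
  obtain ⟨C, hC⟩ := Pool.Agent.Helper923.HMertens.mertens_log
  have hC0 : 0 ≤ C := (abs_nonneg _).trans (hC 1 le_rfl)
  set W := ∑' k, ww k with hW
  have hW0 : 0 ≤ W := tsum_nonneg ww_nonneg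
  refine ⟨Real.exp (W * ((4 * Real.pi ^ 2 * c ^ 2 + 1 / ε) * (1 + C))), Real.exp 1,
    Real.exp_pos _, ?_⟩
  intro T hT N N' hNN
  have hT0 : 0 < T := (Real.exp_pos 1).trans_le hT
  set L := Real.log T with hL
  have hL1 : 1 ≤ L := by
    rw [hL, ← Real.log_exp 1]
    exact Real.log_le_log (Real.exp_pos 1) hT
  have hL0 : 0 < L := by linarith
  set δ := dl c T with hδ
  have hδv : δ = 2 * Real.pi * c / L := rfl
  have hδ0 : 0 < δ := by rw [hδv]; positivity
  set z := T ^ ε with hz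
  have hzpos : 0 < z := Real.rpow_pos_of_pos hT0 _
  have hlogz : Real.log z = ε * L := by rw [hz, Real.log_rpow hT0]
  set X := N * N' with hX
  have hXT : (X : ℝ) ≤ T := by
    rw [hX]
    push_cast
    exact hNN
  set f : ℕ → ℝ := fun n => GG z δ n ^ 2 / (n : ℝ) with hf
  set a : ℕ → ℝ := fun p => (if (p : ℝ) ≤ z then (|δ| * Real.log p) ^ 2 else 1) / p with ha
  have hmain := euler_le f (fun n => by rw [hf]; simp only; positivity)
    (by rw [hf]; simp only; rw [(GG_mult z δ).1]; simp)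
    (by
      intro m n hmn
      rw [hf]
      simp only
      rw [(GG_mult z δ).2 hmn]
      push_cast
      rw [mul_pow, mul_div_mul_comm]) a X
    (fun p => by
      rw [ha]
      simp only
      split_ifs <;> positivity)
    (fun p hp => ⟨a p, fun k hk => GG_sq_le hp hk⟩)
    (fun p hp _ k hk => GG_sq_le hp hk)
  have hle : ∑ n ∈ Finset.Icc 1 X, ‖b0 c ε T N N' n‖ ^ 2 / n ≤ ∑ n ∈ Finset.Icc 1 X, f n := by
    refine Finset.sum_le_sum fun n _ => ?_
    have := pow_le_pow_left₀ (norm_nonneg _) (b0_le c ε T N N' n) 2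
    rw [hf]
    simp only
    exact div_le_div_of_nonneg_right this (Nat.cast_nonneg n)
  refine hle.trans (hmain.trans ?_)
  rw [Real.exp_le_exp]
  refine mul_le_mul_of_nonneg_left ?_ hW0
  rcases Nat.eq_zero_or_pos X with hX0 | hXpos
  · rw [hX0]
    simp
    positivity
  have hB0 : 0 ≤ 4 * Real.pi ^ 2 * c ^ 2 / L + 1 / (ε * L) := by positivity
  calc ∑ p ∈ (Finset.Icc 1 X).filter Nat.Prime, a p
      ≤ ∑ p ∈ (Finset.Icc 1 X).filter Nat.Prime,
        (4 * Real.pi ^ 2 * c ^ 2 / L + 1 / (ε * L)) * (Real.log p / p) := by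
        refine Finset.sum_le_sum fun p hp => ?_
        rw [Finset.mem_filter, Finset.mem_Icc] at hp
        have hp0 : (0 : ℝ) < p := by exact_mod_cast hp.2.pos
        have hpT : (p : ℝ) ≤ T := le_trans (by exact_mod_cast hp.1.2) hXT
        have hlp : Real.log p ≤ L := Real.log_le_log hp0 hpT
        have hlp0 : 0 ≤ Real.log p := Real.log_natCast_nonneg p
        rw [ha]
        simp only
        rw [← mul_div_assoc]
        refine div_le_div_of_nonneg_right ?_ hp0.le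
        split_ifs with hpz
        · rw [abs_of_pos hδ0, mul_pow, hδv]
          have e1 : (2 * Real.pi * c / L) ^ 2 * Real.log p ^ 2 =
              4 * Real.pi ^ 2 * c ^ 2 / L * (Real.log p * (Real.log p / L)) := by
            field_simp
            ring
          rw [e1]
          have e2 : Real.log p / L ≤ 1 := by
            rw [div_le_one hL0]
            exact hlp
          have e3 : Real.log p * (Real.log p / L) ≤ Real.log p := by
            calc _ ≤ Real.log p * 1 := mul_le_mul_of_nonneg_left e2 hlp0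
              _ = _ := mul_one _
          have e4 : 0 ≤ 4 * Real.pi ^ 2 * c ^ 2 / L := by positivity
          have e5 : 0 ≤ 1 / (ε * L) * Real.log p := by positivity
          calc _ ≤ 4 * Real.pi ^ 2 * c ^ 2 / L * Real.log p := mul_le_mul_of_nonneg_left e3 e4
            _ ≤ _ := by rw [add_mul]; linarith
        · have e1 : ε * L ≤ Real.log p := by
            rw [← hlogz]
            exact Real.log_le_log hzpos (le_of_lt (lt_of_not_ge hpz))
          have e2 : 1 ≤ 1 / (ε * L) * Real.log p := by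
            rw [one_div, ← div_eq_inv_mul, le_div_iff₀ (by positivity), one_mul]
            exact e1
          have e3 : 0 ≤ 4 * Real.pi ^ 2 * c ^ 2 / L * Real.log p := by positivity
          rw [add_mul]
          linarith
    _ = (4 * Real.pi ^ 2 * c ^ 2 / L + 1 / (ε * L)) *
        ∑ p ∈ (Finset.Icc 1 X).filter Nat.Prime, Real.log p / p := by rw [Finset.mul_sum]
    _ ≤ (4 * Real.pi ^ 2 * c ^ 2 / L + 1 / (ε * L)) * (L + C) := by
        refine mul_le_mul_of_nonneg_left ?_ hB0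
        have h1 := (abs_le.1 (hC X hXpos)).2
        have h2 : Real.log X ≤ L := Real.log_le_log (by exact_mod_cast hXpos) hXT
        linarith
    _ = (4 * Real.pi ^ 2 * c ^ 2 + 1 / ε) * (1 + C / L) := by field_simp
    _ ≤ (4 * Real.pi ^ 2 * c ^ 2 + 1 / ε) * (1 + C) := by
        refine mul_le_mul_of_nonneg_left ?_ (by positivity)
        have : C / L ≤ C := div_le_self hC0 hL1
        linarith

end Pool.Agent.W612.PP
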